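import Mathlib

namespace Pool.Agent.Results.MP_336050_an.NoMinimal

open Matrix

/-- The orbit of `x` under the tuple `A`: all `A 0 ^ k 0 * ⋯ * A (m-1) ^ k (m-1)` applied to `x`. -/
def Orb {m n : ℕ} (A : Fin m → Matrix (Fin n) (Fin n) ℝ) (x : Fin n → ℝ) : Set (Fin n → ℝ) :=
  {y | ∃ k : Fin m → ℕ, y = (List.ofFn fun i => A i ^ k i).prod *ᵥ x}

lemma common {V : Type} [AddCommGroup V] [Module ℂ V] [FiniteDimensional ℂ V] [Nontrivial V]
    {ι : Type} [DecidableEq ι] (f : ι → Module.End ℂ V) (hf : ∀ i j, Commute (f i) (f j))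
    (s : Finset ι) :
    ∃ W : Submodule ℂ V, W ≠ ⊥ ∧ (∀ i, ∀ v ∈ W, f i v ∈ W) ∧
      ∀ i ∈ s, ∃ c : ℂ, ∀ v ∈ W, f i v = c • v := by
  induction s using Finset.induction_on with
  | empty => exact ⟨⊤, top_ne_bot, fun _ _ _ => trivial, by simp⟩
  | insert j s hj ih =>
    obtain ⟨W, hW, hinv, hs⟩ := ih
    haveI : Nontrivial W := Submodule.nontrivial_iff_ne_bot.2 hW
    obtain ⟨c, hc⟩ := Module.End.exists_eigenvalue ((f j).restrict (hinv j))
    obtain ⟨v, hv⟩ := hc.exists_hasEigenvector
    have hv1 : f j v = c • (v : V) := by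
      have := congrArg Subtype.val hv.apply_eq_smul
      simpa using this
    refine ⟨W ⊓ (f j).eigenspace c, ?_, ?_, ?_⟩
    · intro h
      have : (v : V) ∈ W ⊓ (f j).eigenspace c := ⟨v.2, Module.End.mem_eigenspace_iff.2 hv1⟩
      rw [h] at this
      exact hv.2 (Subtype.ext (by simpa using this))
    · intro i w hw
      refine ⟨hinv i w hw.1, Module.End.mem_eigenspace_iff.2 ?_⟩
      have h1 := Module.End.mem_eigenspace_iff.1 hw.2
      have h2 := congrArg (fun g : Module.End ℂ V => g w) (hf j i).eq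
      simp only [Module.End.mul_apply] at h2
      rw [h2, h1, map_smul]
    · intro i hi
      rcases Finset.mem_insert.1 hi with rfl | hi
      · exact ⟨c, fun w hw => Module.End.mem_eigenspace_iff.1 hw.2⟩
      · obtain ⟨d, hd⟩ := hs i hi
        exact ⟨d, fun w hw => hd w hw.1⟩

lemma plane {m n : ℕ} (hn : 0 < n) (A : Fin m → Matrix (Fin n) (Fin n) ℝ)
    (hA : ∀ i j, A i * A j = A j * A i) :
    ∃ a b : Fin n → ℝ, (a ≠ 0 ∨ b ≠ 0) ∧
      ∀ i, ∀ v ∈ Submodule.span ℝ ({a, b} : Set (Fin n → ℝ)),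
        A i *ᵥ v ∈ Submodule.span ℝ ({a, b} : Set (Fin n → ℝ)) := by
  haveI : Nonempty (Fin n) := ⟨⟨0, hn⟩⟩
  let f : Fin m → Module.End ℂ (Fin n → ℂ) := fun i =>
    Matrix.toLin' ((A i).map (Complex.ofRealHom))
  have hf : ∀ i j, Commute (f i) (f j) := by
    intro i j
    show f i * f j = f j * f i
    simp only [f, Module.End.mul_eq_comp, ← Matrix.toLin'_mul, ← Matrix.map_mul, hA i j]
  obtain ⟨W, hW, -, hs⟩ := common f hf Finset.univ
  obtain ⟨v, hvW, hv⟩ := Submodule.exists_mem_ne_zero_of_ne_bot hW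
  refine ⟨fun r => (v r).re, fun r => (v r).im, ?_, ?_⟩
  · by_contra h
    push Not at h
    apply hv
    funext r
    exact Complex.ext (congrFun h.1 r) (congrFun h.2 r)
  · intro i
    obtain ⟨c, hc⟩ := hs i (Finset.mem_univ _)
    have h := hc v hvW
    have hre : A i *ᵥ (fun r => (v r).re) =
        c.re • (fun r => (v r).re) - c.im • (fun r => (v r).im) := by
      funext r
      have := congrArg Complex.re (congrFun h r)
      simpa [f, Matrix.mulVec, dotProduct, Complex.re_sum] using this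
    have him : A i *ᵥ (fun r => (v r).im) =
        c.re • (fun r => (v r).im) + c.im • (fun r => (v r).re) := by
      funext r
      have := congrArg Complex.im (congrFun h r)
      simpa [f, Matrix.mulVec, dotProduct, Complex.im_sum] using this
    intro w hw
    have ha : (fun r => (v r).re) ∈ Submodule.span ℝ
      ({fun r => (v r).re, fun r => (v r).im} : Set (Fin n → ℝ)) :=
      Submodule.subset_span (by simp)
    have hb : (fun r => (v r).im) ∈ Submodule.span ℝ
      ({fun r => (v r).re, fun r => (v r).im} : Set (Fin n → ℝ)) :=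
      Submodule.subset_span (by simp)
    obtain ⟨s, t, rfl⟩ := Submodule.mem_span_pair.1 hw
    rw [Matrix.mulVec_add, Matrix.mulVec_smul, Matrix.mulVec_smul, hre, him]
    exact Submodule.add_mem _
      (Submodule.smul_mem _ _ (Submodule.sub_mem _ (Submodule.smul_mem _ _ ha)
        (Submodule.smul_mem _ _ hb)))
      (Submodule.smul_mem _ _ (Submodule.add_mem _ (Submodule.smul_mem _ _ hb)
        (Submodule.smul_mem _ _ ha)))

theorem result (n : ℕ) (hn : 3 ≤ n) (m : ℕ) (A : Fin m → Matrix (Fin n) (Fin n) ℝ)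
    (hA : ∀ i j, A i * A j = A j * A i) :
    ∃ x : Fin n → ℝ, x ≠ 0 ∧ ¬ Dense (Orb A x) := by
  obtain ⟨a, b, hab, hinv⟩ := plane (by omega) A hA
  set P := Submodule.span ℝ ({a, b} : Set (Fin n → ℝ)) with hP
  have hpow : ∀ i k, ∀ v ∈ P, (A i ^ k) *ᵥ v ∈ P := by
    intro i k
    induction k with
    | zero => intro v hv; simpa using hv
    | succ k ih =>
      intro v hv
      rw [pow_succ, ← Matrix.mulVec_mulVec]
      exact ih _ (hinv i v hv)
  have hlist : ∀ l : List (Matrix (Fin n) (Fin n) ℝ), (∀ M ∈ l, ∀ v ∈ P, M *ᵥ v ∈ P) →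
      ∀ v ∈ P, l.prod *ᵥ v ∈ P := by
    intro l
    induction l with
    | nil => intro _ v hv; simpa using hv
    | cons M l ih =>
      intro h v hv
      rw [List.prod_cons, ← Matrix.mulVec_mulVec]
      exact h M (by simp) _ (ih (fun N hN => h N (by simp [hN])) v hv)
  have key : ∀ x ∈ P, ¬ Dense (Orb A x) := by
    intro x hx hd
    have hsub : Orb A x ⊆ P := by
      rintro y ⟨k, rfl⟩
      refine hlist _ ?_ x hx
      intro M hM
      obtain ⟨i, rfl⟩ := (List.mem_ofFn' _ _).1 hM
      exact hpow i (k i)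
    have hcl : IsClosed (P : Set (Fin n → ℝ)) := P.closed_of_finiteDimensional
    have htop : P = ⊤ := by
      rw [eq_top_iff]
      intro y _
      exact hcl.closure_subset_iff.2 hsub (hd y)
    have h1 : Module.finrank ℝ P ≤ 2 := by
      classical
      have := finrank_span_finset_le_card (R := ℝ) ({a, b} : Finset (Fin n → ℝ))
      rw [Set.finrank] at this
      have h2 : (({a, b} : Finset (Fin n → ℝ)) : Set (Fin n → ℝ)) = {a, b} := by simp
      rw [h2] at this
      exact this.trans (Finset.card_le_two)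
    rw [htop, finrank_top] at h1
    simp at h1
    omega
  rcases hab with h | h
  · exact ⟨a, h, key a (Submodule.subset_span (by simp))⟩
  · exact ⟨b, h, key b (Submodule.subset_span (by simp))⟩

end Pool.Agent.Results.MP_336050_an.NoMinimal
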